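import Pool.Agent.Helper15.AB.All

/-!
# Thickened prime components of Apollonian packings have positive density

Circles are oriented generalized circles `v = (co, cu, ct)`, where `cu` is the signed curvature,
`ct` the curvature times the centre, and `bil` the invariant bilinear form (definitions in
`Pool.Agent.Helper15.AB.ApDefs`). The lemmas `centre_form` and `tang_iff` below translate the
algebraic conditions into plane geometry.
-/

set_option autoImplicit false

namespace Pool.Agent.Results.MP_37d0ef_nt.ThickenedDensity

open Finset Pool.Agent.Helper15.AB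

/-- For circles of nonzero curvatures, `Tang` says that the distance of the centres is the absolute
value of the sum of the signed radii: external tangency for positive curvatures, internal tangency
if one of the curvatures is negative. -/
theorem tang_iff (v w : Circ) (hv : IsCirc v) (hw : IsCirc w) (hcv : cu v ≠ 0) (hcw : cu w ≠ 0) :
    Tang v w ↔ ‖v.2.2 / (cu v : ℂ) - w.2.2 / (cu w : ℂ)‖ = |1 / cu v + 1 / cu w| := by
  obtain ⟨a, c, z⟩ := v
  obtain ⟨b, d, y⟩ := w
  simp only [IsCirc, Tang, bil, cu] at *
  have e1 : ‖z / (c : ℂ) - y / (d : ℂ)‖ ^ 2 =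
      (z.re / c - y.re / d) ^ 2 + (z.im / c - y.im / d) ^ 2 := by
    rw [← Complex.normSq_eq_norm_sq, Complex.normSq_apply, Complex.sub_re, Complex.sub_im,
      Complex.div_ofReal_re, Complex.div_ofReal_re, Complex.div_ofReal_im, Complex.div_ofReal_im]
    ring
  have e2 : z.re * y.re + z.im * y.im - (a * d + b * c) / 2 = -1 ↔
      (z.re / c - y.re / d) ^ 2 + (z.im / c - y.im / d) ^ 2 = (1 / c + 1 / d) ^ 2 := by
    have ha : a = (z.re * z.re + z.im * z.im - 1) / c := by
      field_simp; linarith
    have hb : b = (y.re * y.re + y.im * y.im - 1) / d := by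
      field_simp; linarith
    rw [ha, hb]
    constructor
    · intro h
      field_simp at h ⊢
      linear_combination (-1) * h
    · intro h
      field_simp at h ⊢
      linear_combination (-1) * h
  rw [e2, ← e1]
  constructor
  · intro h
    have := congrArg Real.sqrt h
    rwa [Real.sqrt_sq (norm_nonneg _), Real.sqrt_sq_eq_abs] at this
  · intro h
    rw [h, sq_abs]

open Classical in
/-- `D(X)`: the number of distinct positive integers `n ≤ X` which are curvatures of circles of the
thickened prime component of `C₀` -/
noncomputable def DTh (b : Fin 4 → Circ) (C₀ : Circ) (X : ℝ) : ℕ :=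
  ((Icc 1 ⌊X⌋₊).filter (fun n : ℕ => ∃ D, InTh b C₀ D ∧ cu D = n)).card

/-- For every circle `C₀` of odd prime curvature in a primitive integral Apollonian packing, the
curvatures of the thickened prime component of `C₀` have positive lower density. -/
theorem result : ∀ b : Fin 4 → Circ, PrimPacking b → ∀ C₀ : Circ, Pack b C₀ → OddPrimeCu C₀ →
    ∃ c X₀ : ℝ, 0 < c ∧ ∀ X : ℝ, X₀ ≤ X → c * X ≤ (DTh b C₀ X : ℝ) := by
  intro b hb C₀ h0 h1
  exact aXX b hb C₀ h0 h1

end Pool.Agent.Results.MP_37d0ef_nt.ThickenedDensity
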